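import Pool.Agent.helper2.BB.Spec

/-!
# Project bb: A5, limits of the Koebe flow
-/

set_option autoImplicit false

namespace BB

open Metric MeasureTheory Set Filter Topology Asymptotics

theorem A5_loc (F : ℝ → ℂ → ℂ) (f : ℂ → ℂ)
    (h : ∀ x ∈ ball (0 : ℂ) 1,
      Tendsto (fun y : ℝ × ℂ => F y.1 y.2) (atTop ×ˢ 𝓝[ball (0 : ℂ) 1] x) (𝓝 (f x)))
    (hf : ∀ x ∈ ball (0 : ℂ) 1, ContinuousAt f x) :
    TendstoLocallyUniformlyOn F f atTop (ball (0 : ℂ) 1) := by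
  rw [tendstoLocallyUniformlyOn_iff_forall_tendsto]
  intro x hx
  have h1 : Tendsto (fun y : ℝ × ℂ => f y.2) (atTop ×ˢ 𝓝[ball (0 : ℂ) 1] x) (𝓝 (f x)) :=
    (hf x hx).tendsto.comp (tendsto_snd.mono_right nhdsWithin_le_nhds)
  refine (h1.prodMk_nhds (h x hx)).mono_right ?_
  exact nhds_le_uniformity (f x)

theorem A5_Q (x : ℂ) (hx : x ∈ ball (0 : ℂ) 1) :
    Tendsto (fun y : ℝ × ℂ => Qf (Real.exp (-y.1)) y.2) (atTop ×ˢ 𝓝[ball (0 : ℂ) 1] x)
      (𝓝 1) := by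
  have hx1 : (1 : ℂ) - x ≠ 0 := by
    intro h
    have h2 : x = 1 := (sub_eq_zero.1 h).symm
    rw [h2] at hx
    simp at hx
  have h2 : Tendsto (fun y : ℝ × ℂ => y.2) (atTop ×ˢ 𝓝[ball (0 : ℂ) 1] x) (𝓝 x) :=
    tendsto_snd.mono_right nhdsWithin_le_nhds
  have h1 : Tendsto (fun y : ℝ × ℂ => ((Real.exp (-y.1) : ℝ) : ℂ))
      (atTop ×ˢ 𝓝[ball (0 : ℂ) 1] x) (𝓝 ((0 : ℝ) : ℂ)) := by
    refine (Complex.continuous_ofReal.tendsto 0).comp ?_
    exact (Real.tendsto_exp_neg_atTop_nhds_zero).comp tendsto_fst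
  have h3 : Tendsto (fun y : ℝ × ℂ => Sg y.2) (atTop ×ˢ 𝓝[ball (0 : ℂ) 1] x) (𝓝 (Sg x)) := by
    unfold Sg
    exact (tendsto_const_nhds.add h2).div (tendsto_const_nhds.sub h2) hx1
  have h4 : Tendsto (fun y : ℝ × ℂ => Bs (Real.exp (-y.1)) y.2) (atTop ×ˢ 𝓝[ball (0 : ℂ) 1] x)
      (𝓝 1) := by
    have h5 := (tendsto_const_nhds (x := (1 : ℂ))).add (h1.mul ((h3.pow 2).sub
      (tendsto_const_nhds (x := (1 : ℂ)))))
    simpa [Bs] using h5
  have h6 : ContinuousAt (fun z : ℂ => z ^ (1 / 4 : ℂ)) 1 :=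
    continuousAt_cpow_const (by simp)
  have h7 := h6.tendsto.comp h4
  simp only [Complex.one_cpow] at h7
  exact h7

theorem A5_psi (x : ℂ) (hx : x ∈ ball (0 : ℂ) 1) :
    Tendsto (fun y : ℝ × ℂ => psi (Real.exp (-y.1)) y.2) (atTop ×ˢ 𝓝[ball (0 : ℂ) 1] x)
      (𝓝 0) := by
  have h := A5_Q x hx
  have h2 := ((h.pow 2).sub (tendsto_const_nhds (x := (1 : ℂ)))).div
    ((h.pow 2).add (tendsto_const_nhds (x := (1 : ℂ)))) (by norm_num)
  have e : ((1 : ℂ) ^ 2 - 1) / (1 ^ 2 + 1) = 0 := by norm_num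
  rw [e] at h2
  exact h2

theorem A5_Sg (x : ℂ) (hx : x ∈ ball (0 : ℂ) 1) : 0 < (Sg x).re ∧ 1 - x ≠ 0 := by
  have hn : ‖x‖ < 1 := by simpa using hx
  have hx1 : (1 : ℂ) - x ≠ 0 := by
    intro h
    have h2 : x = 1 := (sub_eq_zero.1 h).symm
    rw [h2] at hn
    simp at hn
  refine ⟨?_, hx1⟩
  have hsq : x.re ^ 2 + x.im ^ 2 < 1 := by
    have h1 : ‖x‖ ^ 2 < 1 := by
      have := norm_nonneg x
      nlinarith
    rw [← Complex.normSq_eq_norm_sq, Complex.normSq_apply] at h1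
    nlinarith
  unfold Sg
  rw [Complex.div_re]
  have hN : 0 < Complex.normSq (1 - x) := Complex.normSq_pos.2 hx1
  rw [← add_div]
  apply div_pos _ hN
  simp only [Complex.add_re, Complex.one_re, Complex.sub_re, Complex.add_im, Complex.one_im,
    Complex.sub_im]
  nlinarith

theorem A5 : A5_stmt := by
  constructor
  · refine A5_loc _ _ ?_ ?_
    · intro x hx
      obtain ⟨_, hx1⟩ := A5_Sg x hx
      have h2 : Tendsto (fun y : ℝ × ℂ => y.2) (atTop ×ˢ 𝓝[ball (0 : ℂ) 1] x) (𝓝 x) :=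
        tendsto_snd.mono_right nhdsWithin_le_nhds
      have h := (((tendsto_const_nhds (x := (1 : ℂ))).sub (A5_psi x hx)).div
        ((tendsto_const_nhds (x := (1 : ℂ))).sub h2) hx1).pow 2
      have e : ((1 - 0 : ℂ) / (1 - x)) ^ 2 = ((1 - x) ^ 2)⁻¹ := by
        rw [sub_zero, div_pow, one_pow, one_div]
      rw [e] at h
      refine h.congr fun y => ?_
      have h1 : (Real.exp y.1 : ℂ) * ((Real.exp (-y.1) : ℝ) : ℂ) = 1 := by
        rw [← Complex.ofReal_mul, ← Real.exp_add]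
        simp
      show _ = (Real.exp y.1 : ℂ) * (((Real.exp (-y.1) : ℝ) : ℂ) *
        ((1 - psi (Real.exp (-y.1)) y.2) / (1 - y.2)) ^ 2)
      rw [← mul_assoc, h1, one_mul]
      rfl
    · intro x hx
      obtain ⟨_, hx1⟩ := A5_Sg x hx
      refine ContinuousAt.inv₀ ?_ (pow_ne_zero 2 hx1)
      fun_prop
  · have hR : ∀ x ∈ ball (0 : ℂ) 1, ContinuousAt Rf x := by
      intro x hx
      obtain ⟨hre, hx1⟩ := A5_Sg x hx
      have hS : ContinuousAt Sg x := by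
        unfold Sg
        exact ContinuousAt.div (by fun_prop) (by fun_prop) hx1
      have hc : ContinuousAt (fun z : ℂ => z ^ (1 / 2 : ℂ)) (Sg x) :=
        continuousAt_cpow_const (Or.inl hre)
      exact hc.comp hS
    refine A5_loc _ _ ?_ hR
    intro x hx
    have h2 : Tendsto (fun y : ℝ × ℂ => Rf y.2) (atTop ×ˢ 𝓝[ball (0 : ℂ) 1] x) (𝓝 (Rf x)) :=
      (hR x hx).tendsto.comp (tendsto_snd.mono_right nhdsWithin_le_nhds)
    have h := h2.div (A5_Q x hx) one_ne_zero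
    rw [div_one] at h
    exact h

end BB
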